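import Mathlib
import Pool.Agent.Y723.Z8.StmS
import Pool.Agent.W402.FK.RKS
import Pool.Agent.W701.FK.Find1

/-!
# Project Z8S, part CD: from the regions to the curves ordered by the minimal discriminant
-/

set_option autoImplicit false

namespace Pool.Agent.Y210.Z8

open Finset Pool.Agent.Y723.Z8 Pool.Agent.W307.SE
open Pool.Agent.W307.RS (DvS mD MDL)

theorem cd : S_CD := by
  classical
  intro m k d M N hd hk hP hM hL hSD hSC hreg
  obtain ⟨C0, F, hF⟩ := hP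
  obtain ⟨C, hC, hb⟩ := hreg
  have key : ∀ Z, ∀ c ∈ DvS m Z, (SelR c.1 c.2).Finite ∧
      (1 : ℝ) ≤ ((SelR c.1 c.2).ncard : ℝ) ∧
      ((SelR c.1 c.2).ncard : ℝ) ≤ GGg SN M N (F c) := by
    intro Z c hc
    obtain ⟨h1, h2, h3, h4, _, e1, e2, e3, q, hq, hr, h5, h6⟩ := (hF Z).2 c hc
    have hdisc : 4 * c.1 ^ 3 + 27 * c.2 ^ 2 ≠ 0 := hc.1
    have hfin := sel_fin hSD (A := -(M (F c).1 (F c).2)) (B := -(N (F c).1 (F c).2))
      (neg_ne_zero.2 h2) (neg_ne_zero.2 h3) (fun h => h4 (neg_injective h))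
    obtain ⟨f1, f2⟩ := hSC c.1 c.2 e1 e2 e3 (-(M (F c).1 (F c).2)) (-(N (F c).1 (F c).2)) q hdisc
      hr hq (by rw [h5]; push_cast; ring) (by rw [h6]; push_cast; ring) hfin
    have f3 := Pool.Agent.W402.FK.rks c.1 c.2 e1 e2 e3 hdisc hr f1
    have f4 : 1 ≤ (SelR c.1 c.2).ncard := le_trans Nat.one_le_two_pow f3
    refine ⟨f1, by exact_mod_cast f4, ?_⟩
    unfold GGg
    rw [if_pos ⟨h1, h2, h3, h4⟩]
    unfold SN
    exact_mod_cast f2
  obtain ⟨C', hC'⟩ := Pool.Agent.W701.FK.finalD_abs (m := m) (k := k) (by omega)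
    (fun c => ((SelR c.1 c.2).ncard : ℝ)) hM hL C hC (C0 + 1) (by omega)
    (fun Z c hc => (key Z c hc).2.1) (by
      intro Z W hW hZW S hS
      obtain ⟨hinj, h2⟩ := hF Z
      calc ∑ x ∈ S, ((SelR x.1 x.2).ncard : ℝ) ≤ ∑ x ∈ S, GGg SN M N (F x) :=
            sum_le_sum fun x hx => (key Z x (hS hx)).2.2
        _ = ∑ t ∈ S.image F, GGg SN M N t := by
            rw [sum_image (hinj.mono hS)]
        _ ≤ C * (W : ℝ) ^ 2 := by
            apply hb W hW
            intro t ht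
            obtain ⟨x, hx', rfl⟩ := mem_image.1 ht
            obtain ⟨_, a2, a3, a4, a5, _⟩ := h2 x (hS hx')
            refine ⟨a2, a3, a4, ?_⟩
            have h4 : (M (F x).1 (F x).2 * N (F x).1 (F x).2 *
                (M (F x).1 (F x).2 - N (F x).1 (F x).2)).natAbs ^ 2 ≤ (W ^ d) ^ 2 := by
              calc _ ≤ C0 * Z := a5
                _ ≤ (C0 + 1) * Z := Nat.mul_le_mul_right _ (by omega)
                _ ≤ W ^ k := hZW
                _ = (W ^ d) ^ 2 := by rw [hk, ← pow_mul, mul_comm]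
            exact (Nat.pow_le_pow_iff_left (by norm_num)).1 h4)
  exact ⟨C', fun Z => ⟨(hC' Z).1, fun c hc => (key Z c hc).1, (hC' Z).2⟩⟩

end Pool.Agent.Y210.Z8
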